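import Mathlib

/-!
# A maximal subalgebra with property (T) without the Grothendieck property

We construct (in ZFC) a maximal subalgebra of `Bor(2^ℕ)` with property (T) which does not have the
Grothendieck property.
-/

set_option autoImplicit false

open MeasureTheory Set Filter Topology

namespace Pool.Agent.Results.MP_54cd88_an.MaxTNotGrothendieck

/-- The Cantor space `2^ℕ`. -/
abbrev Cantor : Type := ℕ → Bool

/-- The fair coin measure on `{0, 1}`. -/
noncomputable def coin : Measure Bool := (PMF.uniformOfFintype Bool).toMeasure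

instance : IsProbabilityMeasure coin := by unfold coin; infer_instance

/-- The standard product measure on the Cantor space. -/
noncomputable def lam : Measure Cantor := Measure.infinitePi fun _ => coin

instance : IsProbabilityMeasure lam := by unfold lam; infer_instance

/-- `V m i` is the set of all `x` with `x m = i`. -/
def V (m : ℕ) (i : Bool) : Set Cantor := {x | x m = i}

/-- The atom of `𝒜_n` containing `x`: all `y` with `y i = x i` for `i ≤ n`. -/
def atom (n : ℕ) (x : Cantor) : Set Cantor := {y | ∀ i ≤ n, y i = x i}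

/-- `phi m A = |λ(A ∩ V_m^0) - λ(A ∩ V_m^1)|`. -/
noncomputable def phi (m : ℕ) (A : Set Cantor) : ℝ :=
  |lam.real (A ∩ V m false) - lam.real (A ∩ V m true)|

/-- `B` is a subalgebra of `Bor(2^ℕ)` which contains all clopen sets. -/
structure IsAlg (B : Set (Set Cantor)) : Prop where
  borel : ∀ A ∈ B, MeasurableSet[borel Cantor] A
  clopen : ∀ A, IsClopen A → A ∈ B
  compl : ∀ A ∈ B, Aᶜ ∈ B
  union : ∀ A ∈ B, ∀ A' ∈ B, A ∪ A' ∈ B

/-- Property (T): for every finite `F ⊆ B` and `ε > 0` there is `n ≥ 1` such that (T.1) and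
(T.2) hold for every atom `U` of `𝒜_n` and every `A ∈ F`. -/
def PropT (B : Set (Set Cantor)) : Prop :=
  ∀ F : Finset (Set Cantor), (∀ A ∈ F, A ∈ B) → ∀ ε : ℝ, 0 < ε → ∃ n : ℕ, 1 ≤ n ∧
    ∀ A ∈ F, ∀ x : Cantor,
      (min (lam.real (A ∩ atom n x)) (lam.real (atom n x \ A)) ≤ ε * lam.real (atom n x) / n) ∧
      ∀ m : ℕ, n < m → m * phi m (A ∩ atom n x) ≤ ε * lam.real (atom n x)

/-- `B` is a maximal subalgebra of `Bor(2^ℕ)` (containing the clopen sets) with property (T). -/
def IsMaxT (B : Set (Set Cantor)) : Prop := Maximal (fun B => IsAlg B ∧ PropT B) B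

/-- The Stone space of `B`: all Boolean homomorphisms `B → {0, 1}`, as a subspace of the product
space `{0, 1}^B`. -/
def stone (B : Set (Set Cantor)) : Set (B → Bool) :=
  {u | (∀ A A' C : B, (C : Set Cantor) = (A : Set Cantor) ∩ A' → u C = (u A && u A')) ∧
    ∀ A C : B, (C : Set Cantor) = (A : Set Cantor)ᶜ → u C = !u A}

theorem isClosed_stone (B : Set (Set Cantor)) : IsClosed (stone B) := by
  have h : stone B =
      (⋂ (A : B) (A' : B) (C : B) (_ : (C : Set Cantor) = (A : Set Cantor) ∩ A'),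
        {u : B → Bool | u C = (u A && u A')}) ∩
      ⋂ (A : B) (C : B) (_ : (C : Set Cantor) = (A : Set Cantor)ᶜ),
        {u : B → Bool | u C = !u A} := by
    ext u
    simp only [stone, mem_ofPred_eq, mem_inter_iff, mem_iInter]
  rw [h]
  refine IsClosed.inter ?_ ?_
  · refine isClosed_iInter fun A => isClosed_iInter fun A' => isClosed_iInter fun C =>
      isClosed_iInter fun _ => isClosed_eq (continuous_apply C) ?_
    have h1 : Continuous fun p : Bool × Bool => (p.1 && p.2) := continuous_of_discreteTopology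
    have h2 : Continuous fun u : B → Bool => (u A, u A') :=
      (continuous_apply A).prodMk (continuous_apply A')
    exact h1.comp h2
  · refine isClosed_iInter fun A => isClosed_iInter fun C => isClosed_iInter fun _ =>
      isClosed_eq (continuous_apply C) ?_
    have h1 : Continuous fun b : Bool => !b := continuous_of_discreteTopology
    exact h1.comp (continuous_apply A)

instance (B : Set (Set Cantor)) : CompactSpace (stone B) :=
  isCompact_iff_compactSpace.1 (isClosed_stone B).isCompact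

/-- A Banach space is a Grothendieck space if every sequence in the dual which converges weak*
also converges weakly. -/
def IsGrothendieckSpace (X : Type*) [NormedAddCommGroup X] [NormedSpace ℝ X] : Prop :=
  ∀ (f : ℕ → StrongDual ℝ X) (g : StrongDual ℝ X),
    (∀ x : X, Tendsto (fun n => f n x) atTop (𝓝 (g x))) →
    ∀ Φ : StrongDual ℝ (StrongDual ℝ X), Tendsto (fun n => Φ (f n)) atTop (𝓝 (Φ g))

/-- The Boolean algebra `B` has the Grothendieck property: `C(St(B))` is a Grothendieck space. -/
def GrothendieckProperty (B : Set (Set Cantor)) : Prop := IsGrothendieckSpace C(stone B, ℝ)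

/-! ### Preliminaries on the measure -/

theorem measurable_iff (A : Set Cantor) : MeasurableSet[borel Cantor] A ↔ MeasurableSet A := by
  rw [← BorelSpace.measurable_eq (α := Cantor)]

theorem coin_singleton (b : Bool) : coin {b} = 2⁻¹ := by
  unfold coin
  rw [PMF.toMeasure_apply_singleton _ _ (MeasurableSet.singleton _)]
  simp

theorem lam_atom (n : ℕ) (x : Cantor) : lam (atom n x) = 2⁻¹ ^ (n + 1) := by
  classical
  have h1 : atom n x = Set.pi (Finset.range (n + 1) : Finset ℕ) (fun i => {x i}) := by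
    ext y
    simp only [atom, Set.mem_ofPred_eq, Set.mem_pi, Finset.coe_range, Set.mem_Iio,
      Set.mem_singleton_iff]
    exact ⟨fun h i hi => h i (by omega), fun h i hi => h i (by omega)⟩
  rw [h1]
  unfold lam
  rw [Measure.infinitePi_pi _ (fun i _ => MeasurableSet.singleton _)]
  simp only [coin_singleton, Finset.prod_const, Finset.card_range]

theorem lam_real_atom (n : ℕ) (x : Cantor) : lam.real (atom n x) = (2⁻¹ : ℝ) ^ (n + 1) := by
  rw [measureReal_def, lam_atom]
  simp

theorem measurableSet_V (m : ℕ) (b : Bool) : MeasurableSet (V m b) := by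
  have h : V m b = (fun x : Cantor => x m) ⁻¹' {b} := rfl
  rw [h]
  exact (measurable_pi_apply m) (MeasurableSet.singleton b)

/-- Flip the `m`-th coordinate. -/
def flip (m : ℕ) (x : Cantor) : Cantor := Function.update x m (!x m)

theorem measurable_flip (m : ℕ) : Measurable (flip m) := by
  unfold flip
  refine measurable_pi_iff.2 fun i => ?_
  by_cases h : i = m
  · subst h
    simp only [Function.update_self]
    exact (measurable_of_countable (f := fun b : Bool => !b)).comp (measurable_pi_apply i)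
  · simp only [Function.update_of_ne h]
    exact measurable_pi_apply i

theorem coin_not (t : Set Bool) : coin ((fun b => !b) ⁻¹' t) = coin t := by
  classical
  have h : ∀ t : Set Bool, coin t = ∑ b : Bool, if b ∈ t then 2⁻¹ else 0 := by
    intro t
    have h1 : t = ⋃ b ∈ (Finset.univ.filter (· ∈ t)), {b} := by ext; simp
    conv_lhs => rw [h1]
    rw [measure_biUnion_finset (by
      intro a _ b _ hab
      simpa using hab) (fun b _ => MeasurableSet.singleton b)]
    simp only [coin_singleton]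
    rw [Finset.sum_filter]
  rw [h, h]
  simp [add_comm]

theorem map_flip (m : ℕ) : lam.map (flip m) = lam := by
  classical
  unfold lam
  refine Measure.eq_infinitePi (fun _ => coin) fun s t ht => ?_
  rw [Measure.map_apply (measurable_flip m) (MeasurableSet.pi s.countable_toSet fun i _ => ht i)]
  have h1 : flip m ⁻¹' Set.pi s t =
      Set.pi s (fun i => if i = m then (fun b => !b) ⁻¹' t i else t i) := by
    ext x
    simp only [mem_preimage, Set.mem_pi, flip]
    refine forall₂_congr fun i _ => ?_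
    by_cases h : i = m
    · subst h; simp
    · simp [h]
  rw [h1, Measure.infinitePi_pi _ (fun i _ => MeasurableSet.of_discrete)]
  refine Finset.prod_congr rfl fun i _ => ?_
  split_ifs
  · exact coin_not _
  · rfl

/-- `S` only depends on the coordinates `≤ n`. -/
def Dep (n : ℕ) (S : Set Cantor) : Prop := ∀ x y : Cantor, (∀ i ≤ n, y i = x i) → (x ∈ S ↔ y ∈ S)

theorem Dep.measurableSet {n : ℕ} {S : Set Cantor} (h : Dep n S) : MeasurableSet S := by
  let f : Cantor → (Fin (n + 1) → Bool) := fun x i => x i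
  have hf : Measurable f := measurable_pi_iff.2 fun i => measurable_pi_apply _
  have h1 : S = f ⁻¹' (f '' S) := by
    refine subset_antisymm (subset_preimage_image f S) ?_
    rintro x ⟨y, hy, hxy⟩
    refine (h y x fun i hi => ?_).1 hy
    exact (congrFun hxy ⟨i, by omega⟩).symm
  rw [h1]
  exact hf MeasurableSet.of_discrete

theorem Dep.mono {n m : ℕ} (hnm : n ≤ m) {S : Set Cantor} (h : Dep n S) : Dep m S :=
  fun x y hxy => h x y fun i hi => hxy i (hi.trans hnm)

theorem Dep.compl {n : ℕ} {S : Set Cantor} (h : Dep n S) : Dep n Sᶜ :=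
  fun x y hxy => not_congr (h x y hxy)

theorem Dep.union {n : ℕ} {S S' : Set Cantor} (h : Dep n S) (h' : Dep n S') : Dep n (S ∪ S') :=
  fun x y hxy => or_congr (h x y hxy) (h' x y hxy)

theorem Dep.inter {n : ℕ} {S S' : Set Cantor} (h : Dep n S) (h' : Dep n S') : Dep n (S ∩ S') :=
  fun x y hxy => and_congr (h x y hxy) (h' x y hxy)

theorem dep_atom (n : ℕ) (x : Cantor) : Dep n (atom n x) := fun _ _ h =>
  ⟨fun hy i hi => (h i hi).trans (hy i hi), fun hz i hi => (h i hi).symm.trans (hz i hi)⟩

theorem Dep.real_eq {n m : ℕ} (hnm : n < m) {S : Set Cantor} (h : Dep n S) :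
    lam.real (S ∩ V m false) = lam.real (S ∩ V m true) := by
  have h1 : flip m ⁻¹' (S ∩ V m true) = S ∩ V m false := by
    ext x
    have h2 : flip m x ∈ S ↔ x ∈ S := (h x (flip m x) fun i hi => by
      unfold flip
      rw [Function.update_of_ne (by omega)]).symm
    have h4 : flip m x m = !x m := Function.update_self _ _ _
    show (flip m x ∈ S ∧ flip m x m = true) ↔ (x ∈ S ∧ x m = false)
    rw [h2, h4]
    simp
  have h3 : lam (flip m ⁻¹' (S ∩ V m true)) = lam (S ∩ V m true) := by
    conv_rhs => rw [← map_flip m]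
    rw [Measure.map_apply (measurable_flip m) (h.measurableSet.inter (measurableSet_V m true))]
  rw [measureReal_def, measureReal_def, ← h1, h3]

/-- the signed version of `phi` -/
noncomputable def I (m : ℕ) (A : Set Cantor) : ℝ :=
  lam.real (A ∩ V m false) - lam.real (A ∩ V m true)

theorem phi_eq (m : ℕ) (A : Set Cantor) : phi m A = |I m A| := rfl

theorem real_sub_le {C C' T : Set Cantor} (h : C \ T = C' \ T) :
    |lam.real C - lam.real C'| ≤ lam.real T := by
  have key : ∀ C C' : Set Cantor, C \ T = C' \ T → lam.real C ≤ lam.real C' + lam.real T := by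
    intro C C' h
    have h1 : C ⊆ C' ∪ T := by
      intro x hx
      by_cases hT : x ∈ T
      · exact Or.inr hT
      · have : x ∈ C' \ T := h ▸ ⟨hx, hT⟩
        exact Or.inl this.1
    exact (measureReal_mono h1).trans (measureReal_union_le _ _)
  rw [abs_sub_le_iff]
  constructor
  · linarith [key C C' h]
  · linarith [key C' C h.symm]

theorem I_sub_le (m : ℕ) {C C' T : Set Cantor} (h : C \ T = C' \ T) :
    |I m C - I m C'| ≤ 2 * lam.real T := by
  have h1 : ∀ b, |lam.real (C ∩ V m b) - lam.real (C' ∩ V m b)| ≤ lam.real T := by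
    intro b
    apply real_sub_le
    have h2 : ∀ D : Set Cantor, (D ∩ V m b) \ T = (D \ T) ∩ V m b := by
      intro D
      ext x
      simp only [Set.mem_sdiff, mem_inter_iff]
      tauto
    rw [h2, h2, h]
  unfold I
  have h2 := h1 false
  have h3 := h1 true
  rw [abs_le] at *
  constructor <;> linarith [h2.1, h2.2, h3.1, h3.2]

theorem I_union (m : ℕ) {C C' : Set Cantor} (hd : Disjoint C C') (hm : MeasurableSet C') :
    I m (C ∪ C') = I m C + I m C' := by
  have h1 : ∀ b, lam.real ((C ∪ C') ∩ V m b) =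
      lam.real (C ∩ V m b) + lam.real (C' ∩ V m b) := by
    intro b
    rw [union_inter_distrib_right]
    exact measureReal_union (hd.mono inter_subset_left inter_subset_left)
      (hm.inter (measurableSet_V m b))
  unfold I
  rw [h1, h1]
  ring

theorem I_empty (m : ℕ) : I m ∅ = 0 := by simp [I]

/-- Property (T) forces `m * phi m C → 0`. -/
theorem tendsto_phi {B : Set (Set Cantor)} (hT : PropT B) {C : Set Cantor} (hC : C ∈ B)
    (hCm : MeasurableSet C) : Tendsto (fun m : ℕ => (m : ℝ) * I m C) atTop (𝓝 0) := by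
  rw [Metric.tendsto_atTop]
  intro ε hε
  obtain ⟨n, -, hn⟩ := hT {C} (by simpa using hC) (ε / 2) (half_pos hε)
  refine ⟨n + 1, fun m hm => ?_⟩
  rw [Real.dist_eq, sub_zero, abs_mul, abs_of_nonneg (Nat.cast_nonneg m)]
  -- sum over the atoms
  let f : Cantor → (Fin (n + 1) → Bool) := fun x i => x i
  have hf : Measurable f := measurable_pi_iff.2 fun i => measurable_pi_apply _
  let e : (Fin (n + 1) → Bool) → Cantor := fun b i => if h : i < n + 1 then b ⟨i, h⟩ else false
  have hfe : ∀ b, f ⁻¹' {b} = atom n (e b) := by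
    intro b
    ext x
    simp only [mem_preimage, mem_singleton_iff, atom, mem_ofPred_eq]
    constructor
    · intro h i hi
      have : i < n + 1 := by omega
      simp only [e, this, dif_pos]
      rw [← h]
    · intro h
      funext i
      have := h i (by omega)
      simp only [e, i.2, dif_pos] at this
      exact this
  have hsum : ∀ D : Set Cantor, MeasurableSet D → ∑ b, lam.real (D ∩ atom n (e b)) = lam.real D := by
    intro D hD
    have h1 := sum_measureReal_preimage_singleton (μ := lam.restrict D) (Finset.univ)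
      (f := f) (fun b _ => hf (MeasurableSet.singleton b))
    rw [Finset.coe_univ, preimage_univ] at h1
    rw [show (lam.restrict D).real univ = lam.real D by
      rw [measureReal_def, Measure.restrict_apply_univ, measureReal_def]] at h1
    rw [← h1]
    refine Finset.sum_congr rfl fun b _ => ?_
    rw [measureReal_def, measureReal_def, Measure.restrict_apply (hf (MeasurableSet.singleton b)),
      hfe, inter_comm]
  have hI : I m C = ∑ b, I m (C ∩ atom n (e b)) := by
    unfold I
    rw [Finset.sum_sub_distrib, ← hsum _ (hCm.inter (measurableSet_V m false)),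
      ← hsum _ (hCm.inter (measurableSet_V m true))]
    congr 1 <;> refine Finset.sum_congr rfl fun b _ => ?_ <;> rw [inter_right_comm]
  have h1 : (m : ℝ) * |I m C| ≤ ε / 2 := by
    calc (m : ℝ) * |I m C| ≤ m * ∑ b, |I m (C ∩ atom n (e b))| := by
          rw [hI]
          exact mul_le_mul_of_nonneg_left (Finset.abs_sum_le_sum_abs _ _) (Nat.cast_nonneg m)
      _ = ∑ b, m * phi m (C ∩ atom n (e b)) := by
          rw [Finset.mul_sum]
          rfl
      _ ≤ ∑ b, ε / 2 * lam.real (atom n (e b)) :=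
          Finset.sum_le_sum fun b _ => (hn C (Finset.mem_singleton_self C) (e b)).2 m (by omega)
      _ = ε / 2 := by
          rw [← Finset.mul_sum]
          have := hsum univ MeasurableSet.univ
          simp only [univ_inter] at this
          rw [this]
          simp
  linarith

/-! ### The small atoms -/

/-- The levels. -/
def ell (k : ℕ) : ℕ := 4 ^ (k + 1)

theorem ell_succ (k : ℕ) : ell (k + 1) = 4 * ell k := by
  unfold ell
  ring

theorem ell_pos (k : ℕ) : 1 ≤ ell k := Nat.one_le_pow _ _ (by norm_num)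

theorem ell_strictMono : StrictMono ell := by
  refine strictMono_nat_of_lt_succ fun k => ?_
  rw [ell_succ]
  have := ell_pos k
  omega

theorem lt_ell (k : ℕ) : k < ell k := by
  have := ell_strictMono.id_le k
  induction k with
  | zero => exact ell_pos 0
  | succ k ih =>
    rw [ell_succ]
    have h1 := ih (ell_strictMono.id_le k)
    omega

theorem ell_add (k j : ℕ) : ell k + j ≤ ell (k + j) := by
  induction j with
  | zero => simp
  | succ j ih =>
    have := ell_strictMono (Nat.lt_succ_self (k + j))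
    have h2 : k + (j + 1) = (k + j) + 1 := by ring
    rw [h2]
    have h3 : ell (k + j) < ell ((k + j) + 1) := this
    omega

/-- The point with exactly one `1`, in position `k`. -/
def e (k : ℕ) : Cantor := fun i => decide (i = k)

/-- The small atoms. -/
def U (k : ℕ) : Set Cantor := atom (ell k) (e k)

theorem disjoint_U {j k : ℕ} (h : j ≠ k) : Disjoint (U j) (U k) := by
  have key : ∀ j k : ℕ, j < k → Disjoint (U j) (U k) := by
    intro j k hjk
    rw [Set.disjoint_left]
    intro x hx hx'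
    have h1 := hx j (lt_ell j).le
    have h2 := hx' j (hjk.le.trans (lt_ell k).le)
    rw [h1] at h2
    simp only [e, decide_true] at h2
    have : decide (j = k) = false := by simpa using hjk.ne
    rw [this] at h2
    exact absurd h2 (by decide)
  rcases lt_or_gt_of_ne h with h | h
  · exact key _ _ h
  · exact (key _ _ h).symm

theorem dep_U (k : ℕ) : Dep (ell k) (U k) := dep_atom _ _

theorem lam_U (k : ℕ) : lam (U k) = 2⁻¹ ^ (ell k + 1) := lam_atom _ _

theorem lam_real_U (k : ℕ) : lam.real (U k) = (2⁻¹ : ℝ) ^ (ell k + 1) := lam_real_atom _ _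

/-- The union of the small atoms with index in `s`. -/
def AS (s : Set ℕ) : Set Cantor := ⋃ i ∈ s, U i

theorem measurableSet_AS (s : Set ℕ) : MeasurableSet (AS s) :=
  MeasurableSet.biUnion s.to_countable fun i _ => (dep_U i).measurableSet

/-- The tails. -/
def T (k : ℕ) : Set Cantor := AS (Ioi k)

theorem lam_T (k : ℕ) : lam.real (T k) ≤ (2⁻¹ : ℝ) ^ (ell (k + 1)) := by
  have h1 : lam (T k) ≤ 2⁻¹ ^ (ell (k + 1)) := by
    have h2 : T k ⊆ ⋃ j : ℕ, U (k + 1 + j) := by
      intro x hx
      obtain ⟨i, hi, hx⟩ := mem_iUnion₂.1 hx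
      have hi' : k < i := hi
      refine mem_iUnion.2 ⟨i - (k + 1), ?_⟩
      rwa [show k + 1 + (i - (k + 1)) = i by omega]
    refine (measure_mono h2).trans ((measure_iUnion_le _).trans ?_)
    have h3 : ∀ j, lam (U (k + 1 + j)) ≤ 2⁻¹ ^ (ell (k + 1) + 1) * 2⁻¹ ^ j := by
      intro j
      rw [lam_U, ← pow_add]
      apply pow_le_pow_right_of_le_one' (by simp)
      have := ell_add (k + 1) j
      omega
    refine (ENNReal.tsum_le_tsum h3).trans ?_
    rw [ENNReal.tsum_mul_left, ENNReal.tsum_geometric, pow_succ, mul_assoc]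
    have : (2⁻¹ : ENNReal) * (1 - 2⁻¹)⁻¹ = 1 := by
      rw [ENNReal.one_sub_inv_two, inv_inv]
      exact ENNReal.inv_mul_cancel (by simp) (by simp)
    rw [this, mul_one]
  rw [measureReal_def]
  calc (lam (T k)).toReal ≤ ((2⁻¹ : ENNReal) ^ (ell (k + 1))).toReal :=
        ENNReal.toReal_mono (by simp) h1
    _ = _ := by simp

theorem AS_diff (s : Set ℕ) (k : ℕ) : AS s \ T k = AS (s ∩ Iic k) \ T k := by
  ext x
  simp only [AS, T, Set.mem_sdiff, mem_iUnion, exists_prop, mem_Ioi, mem_inter_iff, mem_Iic, not_exists,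
    not_and]
  constructor
  · rintro ⟨⟨i, hi, hx⟩, h⟩
    refine ⟨⟨i, ⟨hi, ?_⟩, hx⟩, h⟩
    by_contra hc
    exact h i (not_le.1 hc) hx
  · rintro ⟨⟨i, hi, hx⟩, h⟩
    exact ⟨⟨i, hi.1, hx⟩, h⟩

theorem dep_AS (s : Set ℕ) (k : ℕ) : Dep (ell k) (AS (s ∩ Iic k)) := by
  intro x y hxy
  simp only [AS, mem_iUnion, exists_prop]
  refine exists_congr fun i => and_congr_right fun hi => ?_
  exact (dep_U i).mono (ell_strictMono.monotone hi.2) x y hxy

/-! ### The algebra `B0` -/

/-- `A` is, outside of the tail `T k`, determined by the coordinates `≤ ell k`. -/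
def P (k : ℕ) (A : Set Cantor) : Prop := ∃ D : Set Cantor, Dep (ell k) D ∧ A \ T k = D \ T k

/-- The algebra. -/
def B0 : Set (Set Cantor) := {A | MeasurableSet[borel Cantor] A ∧ ∃ K, ∀ k ≥ K, P k A}

theorem AS_mem (s : Set ℕ) : AS s ∈ B0 :=
  ⟨(measurable_iff _).2 (measurableSet_AS s), 0, fun k _ => ⟨_, dep_AS s k, AS_diff s k⟩⟩

/-- A clopen set is a union of atoms of `𝒜_n` for all large `n`. -/
theorem clopen_level {A : Set Cantor} (hA : IsClopen A) : ∃ N : ℕ, Dep N A := by
  have key : ∃ N : ℕ, ∀ n ≥ N, ∀ x ∈ (Set.univ : Set Cantor), ∀ y : Cantor,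
      (∀ i ≤ n, y i = x i) → (x ∈ A ↔ y ∈ A) := by
    refine (isCompact_univ (X := Cantor)).induction_on
      (p := fun S => ∃ N : ℕ, ∀ n ≥ N, ∀ x ∈ S, ∀ y : Cantor,
        (∀ i ≤ n, y i = x i) → (x ∈ A ↔ y ∈ A)) ⟨0, fun _ _ x hx => absurd hx (by simp)⟩ ?_ ?_ ?_
    · rintro S T hST ⟨N, hN⟩
      exact ⟨N, fun n hn x hx => hN n hn x (hST hx)⟩
    · rintro S T ⟨N, hN⟩ ⟨M, hM⟩
      refine ⟨max N M, fun n hn x hx => ?_⟩
      rcases hx with hx | hx
      · exact hN n ((le_max_left _ _).trans hn) x hx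
      · exact hM n ((le_max_right _ _).trans hn) x hx
    · intro x _
      have hcyl : ∀ C : Set Cantor, IsOpen C → x ∈ C →
          ∃ n, PiNat.cylinder (E := fun _ => Bool) x n ⊆ C := by
        intro C hC hx
        obtain ⟨v, ⟨z, n, rfl⟩, hv1, hv2⟩ :=
          (PiNat.isTopologicalBasis_cylinders (fun _ => Bool)).mem_nhds_iff.1 (hC.mem_nhds hx)
        refine ⟨n, ?_⟩
        rw [PiNat.mem_cylinder_iff_eq.1 hv1]
        exact hv2
      by_cases hxA : x ∈ A
      · obtain ⟨n, hn⟩ := hcyl A hA.isOpen hxA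
        refine ⟨PiNat.cylinder x n, mem_nhdsWithin_of_mem_nhds
          ((PiNat.isOpen_cylinder _ x n).mem_nhds (PiNat.self_mem_cylinder x n)), n, ?_⟩
        intro k hk z hz y hy
        have h1 : y ∈ PiNat.cylinder (E := fun _ => Bool) x n := fun i hi => by
          rw [hy i (by omega)]
          exact hz i hi
        exact iff_of_true (hn hz) (hn h1)
      · obtain ⟨n, hn⟩ := hcyl Aᶜ hA.compl.isOpen hxA
        refine ⟨PiNat.cylinder x n, mem_nhdsWithin_of_mem_nhds
          ((PiNat.isOpen_cylinder _ x n).mem_nhds (PiNat.self_mem_cylinder x n)), n, ?_⟩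
        intro k hk z hz y hy
        have h1 : y ∈ PiNat.cylinder (E := fun _ => Bool) x n := fun i hi => by
          rw [hy i (by omega)]
          exact hz i hi
        exact iff_of_false (hn hz) (hn h1)
  obtain ⟨N, hN⟩ := key
  exact ⟨N, fun x y => hN N le_rfl x (Set.mem_univ _) y⟩

theorem isAlg_B0 : IsAlg B0 where
  borel := fun _ hA => hA.1
  clopen := by
    intro A hA
    obtain ⟨N, hN⟩ := clopen_level hA
    refine ⟨MeasurableSpace.measurableSet_generateFrom hA.isOpen, N, fun k hk => ⟨A, ?_, rfl⟩⟩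
    exact hN.mono (hk.trans (lt_ell k).le)
  compl := by
    rintro A ⟨h1, K, hK⟩
    refine ⟨h1.compl, K, fun k hk => ?_⟩
    obtain ⟨D, hD, h⟩ := hK k hk
    refine ⟨Dᶜ, hD.compl, ?_⟩
    ext x
    have := Set.ext_iff.1 h x
    simp only [Set.mem_sdiff, mem_compl_iff] at this ⊢
    tauto
  union := by
    rintro A ⟨h1, K, hK⟩ A' ⟨h1', K', hK'⟩
    refine ⟨h1.union h1', max K K', fun k hk => ?_⟩
    obtain ⟨D, hD, h⟩ := hK k ((le_max_left _ _).trans hk)
    obtain ⟨D', hD', h'⟩ := hK' k ((le_max_right _ _).trans hk)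
    exact ⟨D ∪ D', hD.union hD', by rw [union_sdiff_distrib, union_sdiff_distrib, h, h']⟩

/-- The numerical estimate. -/
theorem estimate {ε : ℝ} (hε : 0 < ε) : ∃ K : ℕ, ∀ k ≥ K, ∀ j ≥ k,
    (ell (j + 1) : ℝ) * (2 * (2⁻¹ : ℝ) ^ (ell (j + 1))) ≤ ε * (2⁻¹ : ℝ) ^ (ell k + 1) := by
  obtain ⟨K, hK⟩ := pow_unbounded_of_one_lt (16 / ε) (one_lt_two (α := ℝ))
  refine ⟨K, fun k hk j hj => ?_⟩
  have h1 : ell k ≤ ell j := ell_strictMono.monotone hj
  have h2 : K ≤ ell j := hk.trans ((lt_ell k).le.trans h1)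
  rw [ell_succ]
  set a := ell j with ha
  have h3 : (16 / ε) < (2 : ℝ) ^ a := hK.trans_le (pow_le_pow_right₀ one_le_two h2)
  have h4 : (a : ℝ) ≤ 2 ^ a := by exact_mod_cast (Nat.lt_two_pow_self (n := a)).le
  have h5 : (1 : ℝ) ≤ 2 ^ a := one_le_pow₀ one_le_two
  have h6 : (2⁻¹ : ℝ) ^ (a + 1) ≤ (2⁻¹ : ℝ) ^ (ell k + 1) :=
    pow_le_pow_of_le_one (by norm_num) (by norm_num) (by omega)
  refine le_trans ?_ (mul_le_mul_of_nonneg_left h6 hε.le)
  have h7 : (2⁻¹ : ℝ) ^ (4 * a) = ((2 : ℝ) ^ a)⁻¹ * ((2 : ℝ) ^ a)⁻¹ * ((2 : ℝ) ^ a)⁻¹ *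
      ((2 : ℝ) ^ a)⁻¹ := by
    rw [inv_pow, pow_mul']
    ring
  have h8 : (2⁻¹ : ℝ) ^ (a + 1) = ((2 : ℝ) ^ a)⁻¹ / 2 := by
    rw [inv_pow, pow_succ]
    field_simp
  rw [h7, h8]
  push_cast
  set t := (2 : ℝ) ^ a with ht
  have ht0 : 0 < t := by positivity
  have h9 : 16 < ε * t := by
    rw [div_lt_iff₀ hε] at h3
    linarith
  have h10 : (a : ℝ) * t⁻¹ ≤ 1 := by
    rw [mul_inv_le_iff₀ ht0]
    linarith
  have h11 : t⁻¹ ≤ 1 := inv_le_one_of_one_le₀ h5
  have h12 : 16 * t⁻¹ ≤ ε := by
    rw [mul_inv_le_iff₀ ht0]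
    exact h9.le
  have h13 : (0 : ℝ) ≤ t⁻¹ := by positivity
  calc 4 * (a : ℝ) * (2 * (t⁻¹ * t⁻¹ * t⁻¹ * t⁻¹))
      = (((a : ℝ) * t⁻¹) * (8 * t⁻¹) * t⁻¹) * t⁻¹ := by ring
    _ ≤ (1 * (ε / 2) * 1) * t⁻¹ := by
        apply mul_le_mul_of_nonneg_right _ h13
        apply mul_le_mul _ h11 h13 (by positivity)
        apply mul_le_mul h10 (by linarith) (by positivity) (by norm_num)
    _ = ε * (t⁻¹ / 2) := by ring

theorem propT_B0 : PropT B0 := by
  classical
  intro F hF ε hε
  have hN : ∃ K : ℕ, ∀ A ∈ F, ∀ k ≥ K, P k A := by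
    induction F using Finset.induction_on with
    | empty => exact ⟨0, fun A hA => absurd hA (by simp)⟩
    | insert A F _ ih =>
      obtain ⟨N, hN⟩ := ih fun A hA => hF A (Finset.mem_insert_of_mem hA)
      obtain ⟨-, M, hM⟩ := hF A (Finset.mem_insert_self _ _)
      refine ⟨max N M, fun C hC n hn => ?_⟩
      rcases Finset.mem_insert.1 hC with rfl | hC
      · exact hM n ((le_max_right _ _).trans hn)
      · exact hN C hC n ((le_max_left _ _).trans hn)
  obtain ⟨K1, hK1⟩ := hN
  obtain ⟨K2, hK2⟩ := estimate hε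
  set k := max K1 K2 with hk
  refine ⟨ell k, ell_pos k, fun A hA x => ⟨?_, ?_⟩⟩
  · obtain ⟨D, hD, h⟩ := hK1 A hA k (le_max_left _ _)
    have h1 : lam.real (T k) ≤ ε * lam.real (atom (ell k) x) / ell k := by
      rw [lam_real_atom, le_div_iff₀ (by exact_mod_cast ell_pos k)]
      have h2 := hK2 k (le_max_right _ _) k le_rfl
      have h3 := lam_T k
      have h4 : (ell k : ℝ) ≤ ell (k + 1) := by
        exact_mod_cast ell_strictMono.monotone (Nat.le_succ k)
      have h5 : (0 : ℝ) ≤ (2⁻¹ : ℝ) ^ (ell (k + 1)) := by positivity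
      calc lam.real (T k) * ell k ≤ (2⁻¹ : ℝ) ^ (ell (k + 1)) * ell (k + 1) :=
            mul_le_mul h3 h4 (by positivity) h5
        _ ≤ (ell (k + 1) : ℝ) * (2 * (2⁻¹ : ℝ) ^ (ell (k + 1))) := by nlinarith
        _ ≤ _ := h2
    by_cases hx : x ∈ D
    · refine (min_le_right _ _).trans (le_trans (measureReal_mono ?_) h1)
      rintro y ⟨hy, hyA⟩
      by_contra hc
      have hyD : y ∈ D := (hD x y hy).1 hx
      have : y ∈ A \ T k := h ▸ ⟨hyD, hc⟩
      exact hyA this.1
    · refine (min_le_left _ _).trans (le_trans (measureReal_mono ?_) h1)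
      rintro y ⟨hyA, hy⟩
      by_contra hc
      have : y ∈ D \ T k := h ▸ ⟨hyA, hc⟩
      exact hx ((hD x y hy).2 this.1)
  · intro m hm
    -- the stage `j` with `ell j < m ≤ ell (j + 1)`
    obtain ⟨j, hj1, hj2, hj3⟩ : ∃ j, k ≤ j ∧ ell j < m ∧ m ≤ ell (j + 1) := by
      have hex : ∃ j, m ≤ ell (j + 1) := ⟨m, ((lt_ell m).le.trans (ell_strictMono.monotone
        (Nat.le_succ m)))⟩
      refine ⟨Nat.find hex, ?_, ?_, Nat.find_spec hex⟩
      · by_contra hc
        have h1 : Nat.find hex + 1 ≤ k := by omega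
        have h2 := ell_strictMono.monotone h1
        have h3 := Nat.find_spec hex
        omega
      · rcases Nat.eq_zero_or_pos (Nat.find hex) with h0 | h0
        · rw [h0]
          exact (ell_strictMono.monotone (Nat.zero_le k)).trans_lt hm
        · have h1 := Nat.find_min hex (m := Nat.find hex - 1) (by omega)
          rw [show Nat.find hex - 1 + 1 = Nat.find hex by omega] at h1
          omega
    obtain ⟨D, hD, h⟩ := hK1 A hA j ((le_max_left _ _).trans hj1)
    have h1 : (A ∩ atom (ell k) x) \ T j = (D ∩ atom (ell k) x) \ T j := by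
      have h2 : ∀ E : Set Cantor, (E ∩ atom (ell k) x) \ T j = (E \ T j) ∩ atom (ell k) x := by
        intro E
        ext y
        simp only [Set.mem_sdiff, mem_inter_iff]
        tauto
      rw [h2, h2, h]
    have h2 := I_sub_le m h1
    have h3 : I m (D ∩ atom (ell k) x) = 0 := by
      unfold I
      rw [(hD.inter ((dep_atom (ell k) x).mono (ell_strictMono.monotone hj1))).real_eq hj2, sub_self]
    rw [h3, sub_zero] at h2
    rw [phi_eq, lam_real_atom]
    have h4 := hK2 k (le_max_right _ _) j hj1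
    have h5 := lam_T j
    have h6 : (m : ℝ) ≤ ell (j + 1) := by exact_mod_cast hj3
    calc (m : ℝ) * |I m (A ∩ atom (ell k) x)|
        ≤ ell (j + 1) * (2 * (2⁻¹ : ℝ) ^ (ell (j + 1))) :=
          mul_le_mul h6 (h2.trans (by linarith)) (abs_nonneg _) (by positivity)
      _ ≤ _ := h4

/-! ### The Baire category argument -/

theorem continuous_I (m : ℕ) (A : Set Cantor) :
    Continuous (fun s : Cantor => I m (A ∩ AS {i | s i = true})) := by
  refine continuous_iff_continuousAt.2 fun s => Metric.tendsto_nhds.2 fun ε hε => ?_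
  obtain ⟨N, hN⟩ := exists_pow_lt_of_lt_one (half_pos hε) (show (2⁻¹ : ℝ) < 1 by norm_num)
  filter_upwards [(PiNat.isOpen_cylinder (fun _ => Bool) s (N + 1)).mem_nhds
    (PiNat.self_mem_cylinder s (N + 1))] with s' hs'
  have h1 : {i | s' i = true} ∩ Iic N = {i | s i = true} ∩ Iic N := by
    ext i
    simp only [mem_inter_iff, mem_ofPred_eq, mem_Iic]
    refine and_congr_left fun hi => ?_
    rw [PiNat.mem_cylinder_iff.1 hs' i (by omega)]
  have h2 : (A ∩ AS {i | s' i = true}) \ T N = (A ∩ AS {i | s i = true}) \ T N := by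
    have h3 : ∀ C : Set Cantor, (A ∩ C) \ T N = A ∩ (C \ T N) := by
      intro C
      ext x
      simp only [Set.mem_sdiff, mem_inter_iff]
      tauto
    rw [h3, h3, AS_diff _ N, AS_diff {i | s i = true} N, h1]
  have h4 := I_sub_le m h2
  have h5 := lam_T N
  have h6 : (2⁻¹ : ℝ) ^ (ell (N + 1)) ≤ (2⁻¹ : ℝ) ^ N :=
    pow_le_pow_of_le_one (by norm_num) (by norm_num) ((Nat.le_succ N).trans (lt_ell (N + 1)).le)
  rw [Real.dist_eq]
  linarith

/-- The value of the `k`-th functional at `A`. -/
noncomputable def xk (A : Set Cantor) (k : ℕ) : ℝ :=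
  (2 : ℝ) ^ (ell k + 1) * I (2 ^ (ell k + 1)) (A ∩ U k)

theorem IsAlg.inter {B : Set (Set Cantor)} (hB : IsAlg B) {A A' : Set Cantor} (hA : A ∈ B)
    (hA' : A' ∈ B) : A ∩ A' ∈ B := by
  have := hB.compl _ (hB.union _ (hB.compl _ hA) _ (hB.compl _ hA'))
  rwa [compl_union, compl_compl, compl_compl] at this

theorem tendsto_xk {B : Set (Set Cantor)} (hB : IsAlg B) (hT : PropT B) (h0 : B0 ⊆ B)
    {A : Set Cantor} (hA : A ∈ B) : Tendsto (xk A) atTop (𝓝 0) := by
  have hAm : MeasurableSet A := (measurable_iff A).1 (hB.borel A hA)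
  let G : ℕ → Cantor → ℝ := fun k s =>
    ((2 ^ (ell k + 1) : ℕ) : ℝ) * I (2 ^ (ell k + 1)) (A ∩ AS {i | s i = true})
  have hG : ∀ k, Continuous (G k) := fun k => continuous_const.mul (continuous_I _ A)
  have hlim : ∀ s, Tendsto (fun k => G k s) atTop (𝓝 0) := by
    intro s
    have h1 : A ∩ AS {i | s i = true} ∈ B := hB.inter hA (h0 (AS_mem _))
    have h2 := tendsto_phi hT h1 (hAm.inter (measurableSet_AS _))
    have h3 : Tendsto (fun k : ℕ => 2 ^ (ell k + 1)) atTop atTop := by
      refine tendsto_atTop_mono (fun k => ?_) tendsto_id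
      have h4 := lt_ell k
      have h5 := Nat.lt_two_pow_self (n := ell k + 1)
      simp only [id]
      omega
    exact h2.comp h3
  rw [Metric.tendsto_atTop]
  intro ε hε
  obtain ⟨K, s0, hs0⟩ := nonempty_interior_of_iUnion_of_closed
    (f := fun K : ℕ => {s : Cantor | ∀ k ≥ K, |G k s| ≤ ε / 3}) (by
      intro K
      have : {s : Cantor | ∀ k ≥ K, |G k s| ≤ ε / 3} =
          ⋂ (k : ℕ) (_ : k ≥ K), {s | |G k s| ≤ ε / 3} := by
        ext s
        simp only [mem_ofPred_eq, mem_iInter]
      rw [this]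
      exact isClosed_iInter fun k => isClosed_iInter fun _ =>
        isClosed_le ((hG k).abs) continuous_const) (by
      refine eq_univ_of_forall fun s => ?_
      obtain ⟨K, hK⟩ := (Metric.tendsto_atTop.1 (hlim s)) (ε / 3) (by linarith)
      refine mem_iUnion.2 ⟨K, fun k hk => ?_⟩
      have := hK k hk
      rw [Real.dist_eq, sub_zero] at this
      exact this.le)
  obtain ⟨v, ⟨z, n, rfl⟩, hv1, hv2⟩ :=
    (PiNat.isTopologicalBasis_cylinders (fun _ => Bool)).mem_nhds_iff.1
      (isOpen_interior.mem_nhds hs0)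
  rw [← PiNat.mem_cylinder_iff_eq.1 hv1] at hv2
  refine ⟨max K n, fun k hk => ?_⟩
  have hkK : K ≤ k := (le_max_left _ _).trans hk
  have hkn : n ≤ k := (le_max_right _ _).trans hk
  let s : Cantor := fun i => if i < n then s0 i else false
  let s' : Cantor := fun i => if i < n then s0 i else decide (i = k)
  have hs : s ∈ PiNat.cylinder (E := fun _ => Bool) s0 n := by
    rw [PiNat.mem_cylinder_iff]
    intro i hi
    simp [s, hi]
  have hs' : s' ∈ PiNat.cylinder (E := fun _ => Bool) s0 n := by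
    rw [PiNat.mem_cylinder_iff]
    intro i hi
    simp [s', hi]
  have h1 : |G k s| ≤ ε / 3 := interior_subset (hv2 hs) k hkK
  have h2 : |G k s'| ≤ ε / 3 := interior_subset (hv2 hs') k hkK
  have h3 : A ∩ AS {i | s' i = true} = (A ∩ AS {i | s i = true}) ∪ (A ∩ U k) := by
    rw [← inter_union_distrib_left]
    congr 1
    ext x
    simp only [AS, mem_iUnion, mem_union, mem_ofPred_eq, exists_prop]
    constructor
    · rintro ⟨i, hi, hx⟩
      by_cases hin : i < n
      · left
        refine ⟨i, ?_, hx⟩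
        simp only [s', hin, if_true] at hi
        simp only [s, hin, if_true, hi]
      · right
        simp only [s', hin, if_false, decide_eq_true_eq] at hi
        rwa [← hi]
    · rintro (⟨i, hi, hx⟩ | hx)
      · refine ⟨i, ?_, hx⟩
        by_cases hin : i < n
        · simp only [s, hin, if_true] at hi
          simp only [s', hin, if_true, hi]
        · simp only [s, hin, if_false] at hi
          exact absurd hi (by decide)
      · refine ⟨k, ?_, hx⟩
        have : ¬ k < n := by omega
        simp [s', this]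
  have h4 : Disjoint (A ∩ AS {i | s i = true}) (A ∩ U k) := by
    refine Disjoint.mono inter_subset_right inter_subset_right ?_
    unfold AS
    rw [Set.disjoint_iUnion₂_left]
    intro i hi
    apply disjoint_U
    rintro rfl
    have : ¬ i < n := by omega
    simp [s, this] at hi
  have h5 : G k s' = G k s + xk A k := by
    simp only [G, xk]
    rw [h3, I_union _ h4 (hAm.inter (dep_U k).measurableSet)]
    push_cast
    ring
  rw [Real.dist_eq, sub_zero]
  have h6 : xk A k = G k s' - G k s := by rw [h5]; ring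
  rw [h6]
  have h7 := abs_sub (G k s') (G k s)
  linarith

/-! ### The functionals -/

section functionals

variable (B : Set (Set Cantor))

open Classical in
/-- The points of the Cantor space in the Stone space of `B`. -/
noncomputable def pt (x : Cantor) : stone B :=
  ⟨fun A => decide (x ∈ (A : Set Cantor)), by
    constructor
    · intro A A' C h
      simp only [h, mem_inter_iff, Bool.decide_and]
    · intro A C h
      simp only [h, mem_compl_iff, decide_not]⟩

/-- The characteristic function of the clopen set given by `A`. -/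
noncomputable def ind (A : B) : C(stone B, ℝ) :=
  ⟨fun u => if u.1 A = true then 1 else 0, by
    have h1 : Continuous fun b : Bool => if b = true then (1 : ℝ) else 0 :=
      continuous_of_discreteTopology
    exact h1.comp ((continuous_apply A).comp continuous_subtype_val)⟩

theorem ind_apply (A : B) (u : stone B) : ind B A u = if u.1 A = true then 1 else 0 := rfl

variable {B}

/-- The characteristic functions form a multiplicative monoid. -/
noncomputable def E (hB : IsAlg B) : Submonoid C(stone B, ℝ) where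
  carrier := Set.range (ind B)
  mul_mem' := by
    rintro _ _ ⟨A, rfl⟩ ⟨A', rfl⟩
    refine ⟨⟨A ∩ A', hB.inter A.2 A'.2⟩, ?_⟩
    ext u
    have h := u.2.1 A A' ⟨A ∩ A', hB.inter A.2 A'.2⟩ rfl
    rw [ContinuousMap.mul_apply, ind_apply, ind_apply, ind_apply, h]
    cases u.1 A <;> cases u.1 A' <;> simp
  one_mem' := by
    refine ⟨⟨univ, hB.clopen univ isClopen_univ⟩, ?_⟩
    ext u
    rw [ind_apply, ContinuousMap.one_apply]
    have h1 := u.2.2 ⟨univ, hB.clopen univ isClopen_univ⟩ ⟨∅, hB.clopen ∅ isClopen_empty⟩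
      (by simp)
    have h2 := u.2.1 ⟨univ, hB.clopen univ isClopen_univ⟩ ⟨∅, hB.clopen ∅ isClopen_empty⟩
      ⟨∅, hB.clopen ∅ isClopen_empty⟩ (by simp)
    cases h3 : u.1 ⟨univ, hB.clopen univ isClopen_univ⟩
    · rw [h3] at h1 h2
      rw [h1] at h2
      simp at h2
    · simp

theorem exists_near (hB : IsAlg B) (f : C(stone B, ℝ)) {ε : ℝ} (hε : 0 < ε) :
    ∃ g ∈ Submodule.span ℝ (Set.range (ind B)), ‖f - g‖ < ε := by
  have h1 : (Algebra.adjoin ℝ (E hB : Set C(stone B, ℝ))).topologicalClosure = ⊤ := by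
    apply ContinuousMap.subalgebra_topologicalClosure_eq_top_of_separatesPoints
    intro u v huv
    have h2 : ∃ A, u.1 A ≠ v.1 A := by
      by_contra hc
      push Not at hc
      exact huv (Subtype.ext (funext hc))
    obtain ⟨A, hA⟩ := h2
    refine ⟨ind B A, ⟨ind B A, Algebra.subset_adjoin ⟨A, rfl⟩, rfl⟩, ?_⟩
    rw [ind_apply, ind_apply]
    cases h3 : u.1 A <;> cases h4 : v.1 A <;> simp_all
  have h2 : f ∈ (Algebra.adjoin ℝ (E hB : Set C(stone B, ℝ))).topologicalClosure := by
    rw [h1]
    trivial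
  have h3 : f ∈ closure ((Algebra.adjoin ℝ (E hB : Set C(stone B, ℝ))) : Set C(stone B, ℝ)) := h2
  obtain ⟨g, hg, hfg⟩ := Metric.mem_closure_iff.1 h3 ε hε
  refine ⟨g, ?_, by rwa [← dist_eq_norm]⟩
  have h4 : g ∈ Subalgebra.toSubmodule (Algebra.adjoin ℝ (E hB : Set C(stone B, ℝ))) := hg
  rw [Algebra.adjoin_eq_span, Submonoid.closure_eq] at h4
  exact h4

theorem measurable_ind (hB : IsAlg B) (A : B) : Measurable (fun x => ind B A (pt B x)) := by
  classical
  have h : (fun x => ind B A (pt B x)) = (A : Set Cantor).indicator 1 := by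
    funext x
    rw [ind_apply]
    simp only [pt, decide_eq_true_eq, indicator, Pi.one_apply]
  rw [h]
  exact measurable_one.indicator ((measurable_iff _).1 (hB.borel _ A.2))

theorem measurable_comp (hB : IsAlg B) (f : C(stone B, ℝ)) :
    Measurable (fun x => f (pt B x)) := by
  have h1 : ∀ g ∈ Submodule.span ℝ (Set.range (ind B)), Measurable (fun x => g (pt B x)) := by
    intro g hg
    induction hg using Submodule.span_induction with
    | mem g hg =>
      obtain ⟨A, rfl⟩ := hg
      exact measurable_ind hB A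
    | zero => exact measurable_const
    | add g g' _ _ h h' => exact h.add h'
    | smul c g _ h => exact h.const_mul c
  choose g hg hfg using fun n : ℕ => exists_near hB f (Nat.one_div_pos_of_nat (α := ℝ) (n := n))
  refine measurable_of_tendsto_metrizable (fun n => h1 (g n) (hg n)) ?_
  rw [tendsto_pi_nhds]
  intro x
  rw [Metric.tendsto_atTop]
  intro ε hε
  obtain ⟨N, hN⟩ := exists_nat_one_div_lt hε
  refine ⟨N, fun n hn => ?_⟩
  rw [dist_comm, Real.dist_eq]
  have h2 : ‖(f - g n) (pt B x)‖ ≤ ‖f - g n‖ := ContinuousMap.norm_coe_le_norm _ _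
  have h3 : (1 : ℝ) / (n + 1) ≤ 1 / (N + 1) := Nat.one_div_le_one_div hn
  calc |f (pt B x) - g n (pt B x)| ≤ ‖f - g n‖ := h2
    _ < 1 / (n + 1) := hfg n
    _ ≤ 1 / (N + 1) := h3
    _ < ε := hN

/-- The Rademacher functions. -/
noncomputable def sgn (m : ℕ) (x : Cantor) : ℝ := if x m = true then -1 else 1

theorem measurable_sgn (m : ℕ) : Measurable (sgn m) := by
  unfold sgn
  exact (measurable_of_countable (f := fun b : Bool => if b = true then (-1 : ℝ) else 1)).comp
    (measurable_pi_apply m)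

theorem abs_sgn (m : ℕ) (x : Cantor) : |sgn m x| = 1 := by
  unfold sgn
  split_ifs <;> simp

theorem norm_le (m : ℕ) (f : C(stone B, ℝ)) (x : Cantor) : ‖sgn m x * f (pt B x)‖ ≤ ‖f‖ := by
  rw [norm_mul, Real.norm_eq_abs, abs_sgn, one_mul]
  exact ContinuousMap.norm_coe_le_norm _ _

theorem integrable_sgn (hB : IsAlg B) (m : ℕ) (f : C(stone B, ℝ)) (S : Set Cantor) :
    Integrable (fun x => sgn m x * f (pt B x)) (lam.restrict S) :=
  Integrable.of_bound ((measurable_sgn m).mul (measurable_comp hB f)).aestronglyMeasurable ‖f‖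
    (Eventually.of_forall (norm_le m f))

/-- The functionals. -/
noncomputable def nu (hB : IsAlg B) (k : ℕ) : StrongDual ℝ C(stone B, ℝ) :=
  LinearMap.mkContinuous
    { toFun := fun f => (2 : ℝ) ^ (ell k + 1) *
        ∫ x in U k, sgn (2 ^ (ell k + 1)) x * f (pt B x) ∂lam
      map_add' := by
        intro f g
        rw [← mul_add, ← integral_add (integrable_sgn hB _ f _) (integrable_sgn hB _ g _)]
        simp only [ContinuousMap.add_apply, mul_add]
      map_smul' := by
        intro c f
        simp only [ContinuousMap.smul_apply, smul_eq_mul, RingHom.id_apply]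
        have h1 : ∀ x, sgn (2 ^ (ell k + 1)) x * (c * f (pt B x)) =
            c * (sgn (2 ^ (ell k + 1)) x * f (pt B x)) := fun x => by ring
        simp_rw [h1]
        rw [integral_const_mul]
        ring } 1 (by
      intro f
      simp only [LinearMap.coe_mk, AddHom.coe_mk, one_mul]
      rw [norm_mul, Real.norm_of_nonneg (by positivity)]
      have h1 := norm_setIntegral_le_of_norm_le_const (μ := lam) (s := U k)
        (f := fun x => sgn (2 ^ (ell k + 1)) x * f (pt B x)) (C := ‖f‖)
        (measure_lt_top _ _) (fun x _ => norm_le _ f x)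
      rw [lam_real_U] at h1
      calc (2 : ℝ) ^ (ell k + 1) * ‖∫ x in U k, sgn (2 ^ (ell k + 1)) x * f (pt B x) ∂lam‖
          ≤ (2 : ℝ) ^ (ell k + 1) * (‖f‖ * (2⁻¹ : ℝ) ^ (ell k + 1)) :=
            mul_le_mul_of_nonneg_left h1 (by positivity)
        _ = ‖f‖ := by
            rw [inv_pow]
            field_simp)

theorem nu_apply (hB : IsAlg B) (k : ℕ) (f : C(stone B, ℝ)) :
    nu hB k f = (2 : ℝ) ^ (ell k + 1) *
      ∫ x in U k, sgn (2 ^ (ell k + 1)) x * f (pt B x) ∂lam := rfl

theorem norm_nu (hB : IsAlg B) (k : ℕ) : ‖nu hB k‖ ≤ 1 :=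
  LinearMap.mkContinuous_norm_le _ zero_le_one _

theorem nu_ind (hB : IsAlg B) (k : ℕ) (A : B) : nu hB k (ind B A) = xk A k := by
  classical
  have hA : MeasurableSet (A : Set Cantor) := (measurable_iff _).1 (hB.borel _ A.2)
  rw [nu_apply, xk]
  congr 1
  set m := 2 ^ (ell k + 1)
  have h1 : ∀ x, sgn m x * ind B A (pt B x) =
      ((A : Set Cantor) ∩ V m false).indicator (1 : Cantor → ℝ) x -
        ((A : Set Cantor) ∩ V m true).indicator (1 : Cantor → ℝ) x := by
    intro x
    rw [ind_apply]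
    simp only [pt, decide_eq_true_eq, indicator, Pi.one_apply, mem_inter_iff, V, mem_ofPred_eq, sgn]
    by_cases hx : x ∈ (A : Set Cantor) <;> cases h : x m <;> simp [hx]
  simp_rw [h1]
  have hi : ∀ b, Integrable (((A : Set Cantor) ∩ V m b).indicator (1 : Cantor → ℝ))
      (lam.restrict (U k)) := fun b =>
    (integrable_const (1 : ℝ)).indicator (hA.inter (measurableSet_V m b))
  rw [integral_sub (hi false) (hi true), integral_indicator_one (hA.inter (measurableSet_V m false)),
    integral_indicator_one (hA.inter (measurableSet_V m true)),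
    measureReal_restrict_apply (hA.inter (measurableSet_V m false)),
    measureReal_restrict_apply (hA.inter (measurableSet_V m true))]
  unfold I
  rw [inter_right_comm (A : Set Cantor) (V m false), inter_right_comm (A : Set Cantor) (V m true)]

theorem tendsto_nu (hB : IsAlg B) (hT : PropT B) (h0 : B0 ⊆ B) (f : C(stone B, ℝ)) :
    Tendsto (fun k => nu hB k f) atTop (𝓝 0) := by
  have h1 : ∀ g ∈ Submodule.span ℝ (Set.range (ind B)),
      Tendsto (fun k => nu hB k g) atTop (𝓝 0) := by
    intro g hg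
    induction hg using Submodule.span_induction with
    | mem g hg =>
      obtain ⟨A, rfl⟩ := hg
      simp_rw [nu_ind]
      exact tendsto_xk hB hT h0 A.2
    | zero => simp
    | add g g' _ _ h h' => simpa using h.add h'
    | smul c g _ h => simpa using h.const_mul c
  rw [Metric.tendsto_atTop]
  intro ε hε
  obtain ⟨g, hg, hfg⟩ := exists_near hB f (half_pos hε)
  obtain ⟨N, hN⟩ := (Metric.tendsto_atTop.1 (h1 g hg)) (ε / 2) (half_pos hε)
  refine ⟨N, fun k hk => ?_⟩
  have h2 := hN k hk
  rw [Real.dist_eq, sub_zero] at h2 ⊢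
  have h3 : |nu hB k (f - g)| ≤ ‖f - g‖ := by
    have := (nu hB k).le_of_opNorm_le (norm_nu hB k) (f - g)
    simpa using this
  have h4 : nu hB k f = nu hB k (f - g) + nu hB k g := by simp
  rw [h4]
  have h5 := abs_add_le (nu hB k (f - g)) (nu hB k g)
  linarith

theorem dep_mem {n : ℕ} {D : Set Cantor} (hD : Dep n D) : D ∈ B0 :=
  ⟨(measurable_iff _).2 hD.measurableSet, n, fun k hk => ⟨D, hD.mono (hk.trans (lt_ell k).le), rfl⟩⟩

theorem dep_V (m : ℕ) (b : Bool) : Dep m (V m b) := fun x y h => by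
  simp only [V, mem_ofPred_eq, h m le_rfl]

/-- The left halves of the small atoms. -/
def W (k : ℕ) : Set Cantor := U k ∩ V (2 ^ (ell k + 1)) false

theorem W_mem (h0 : B0 ⊆ B) (k : ℕ) : W k ∈ B := by
  refine h0 (dep_mem (n := 2 ^ (ell k + 1)) (Dep.inter ((dep_U k).mono ?_) (dep_V _ _)))
  have := Nat.lt_two_pow_self (n := ell k + 1)
  omega

theorem sum_abs_le (hB : IsAlg B) (h0 : B0 ⊆ B) (μ : StrongDual ℝ C(stone B, ℝ)) (N : ℕ) :
    ∑ k ∈ Finset.range N, |μ (ind B ⟨W k, W_mem h0 k⟩)| ≤ ‖μ‖ := by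
  classical
  let w : ℕ → C(stone B, ℝ) := fun k => ind B ⟨W k, W_mem h0 k⟩
  let g : C(stone B, ℝ) := ∑ k ∈ Finset.range N, (SignType.sign (μ (w k)) : ℝ) • w k
  have h1 : μ g = ∑ k ∈ Finset.range N, |μ (w k)| := by
    simp only [g, map_sum, map_smul, smul_eq_mul]
    exact Finset.sum_congr rfl fun k _ => sign_mul_self _
  have hdis : ∀ (u : stone B) (j k : ℕ), j ≠ k → w j u = 0 ∨ w k u = 0 := by
    intro u j k hjk
    by_contra hc
    push Not at hc
    have h2 : u.1 ⟨W j, W_mem h0 j⟩ = true := by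
      by_contra h
      exact hc.1 (if_neg h)
    have h3 : u.1 ⟨W k, W_mem h0 k⟩ = true := by
      by_contra h
      exact hc.2 (if_neg h)
    have h4 : W j ∩ W k = ∅ := by
      rw [← disjoint_iff_inter_eq_empty]
      exact (disjoint_U hjk).mono inter_subset_left inter_subset_left
    have h5 := u.2.1 ⟨W j, W_mem h0 j⟩ ⟨W k, W_mem h0 k⟩ ⟨∅, hB.clopen ∅ isClopen_empty⟩
      h4.symm
    rw [h2, h3] at h5
    have h6 := u.2.1 ⟨∅, hB.clopen ∅ isClopen_empty⟩ ⟨univ, hB.clopen univ isClopen_univ⟩
      ⟨∅, hB.clopen ∅ isClopen_empty⟩ (by simp)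
    have h7 := u.2.2 ⟨∅, hB.clopen ∅ isClopen_empty⟩ ⟨univ, hB.clopen univ isClopen_univ⟩
      (by simp)
    rw [h5] at h6 h7
    rw [h7] at h6
    simp at h6
  have h2 : ‖g‖ ≤ 1 := by
    rw [ContinuousMap.norm_le _ zero_le_one]
    intro u
    have h3 : g u = ∑ k ∈ Finset.range N, (SignType.sign (μ (w k)) : ℝ) * w k u := by
      simp only [g, ContinuousMap.coe_sum, Finset.sum_apply, ContinuousMap.coe_smul, Pi.smul_apply,
        smul_eq_mul]
    rw [h3]
    by_cases hex : ∃ k ∈ Finset.range N, w k u ≠ 0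
    · obtain ⟨k, hk, hku⟩ := hex
      rw [Finset.sum_eq_single k]
      · rw [norm_mul]
        have h4 : ‖(SignType.sign (μ (w k)) : ℝ)‖ ≤ 1 := by
          rcases SignType.trichotomy (SignType.sign (μ (w k))) with h | h | h <;> simp [h]
        have h5 : ‖w k u‖ ≤ 1 := by
          simp only [w, ind_apply]
          split_ifs <;> simp
        exact mul_le_one₀ h4 (norm_nonneg _) h5
      · intro j _ hjk
        rcases hdis u j k hjk with h | h
        · rw [h, mul_zero]
        · exact absurd h hku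
      · intro h
        exact absurd hk h
    · push Not at hex
      rw [Finset.sum_eq_zero fun k hk => by rw [hex k hk, mul_zero]]
      simp
  calc ∑ k ∈ Finset.range N, |μ (w k)| = μ g := h1.symm
    _ ≤ ‖μ g‖ := le_abs_self _
    _ ≤ ‖μ‖ * ‖g‖ := μ.le_opNorm g
    _ ≤ ‖μ‖ * 1 := by gcongr
    _ = ‖μ‖ := mul_one _

theorem summable_w (hB : IsAlg B) (h0 : B0 ⊆ B) (μ : StrongDual ℝ C(stone B, ℝ)) :
    Summable fun k => |μ (ind B ⟨W k, W_mem h0 k⟩)| :=
  summable_of_sum_range_le (fun _ => abs_nonneg _) (sum_abs_le hB h0 μ)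

/-- The functional on the dual, as a linear map. -/
noncomputable def PhiL (hB : IsAlg B) (h0 : B0 ⊆ B) : StrongDual ℝ C(stone B, ℝ) →ₗ[ℝ] ℝ where
  toFun := fun μ => ∑' k, μ (ind B ⟨W k, W_mem h0 k⟩)
  map_add' := fun μ ν => by
    have h : ∀ k, (μ + ν) (ind B ⟨W k, W_mem h0 k⟩) =
        μ (ind B ⟨W k, W_mem h0 k⟩) + ν (ind B ⟨W k, W_mem h0 k⟩) := fun k => rfl
    simp_rw [h]
    exact (summable_w hB h0 μ).of_abs.tsum_add (summable_w hB h0 ν).of_abs
  map_smul' := fun c μ => by
    have h : ∀ k, (c • μ) (ind B ⟨W k, W_mem h0 k⟩) = c * μ (ind B ⟨W k, W_mem h0 k⟩) :=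
      fun k => rfl
    simp_rw [h]
    exact tsum_mul_left

theorem PhiL_apply (hB : IsAlg B) (h0 : B0 ⊆ B) (μ : StrongDual ℝ C(stone B, ℝ)) :
    PhiL hB h0 μ = ∑' k, μ (ind B ⟨W k, W_mem h0 k⟩) := rfl

theorem PhiL_le (hB : IsAlg B) (h0 : B0 ⊆ B) (μ : StrongDual ℝ C(stone B, ℝ)) :
    ‖PhiL hB h0 μ‖ ≤ 1 * ‖μ‖ := by
  rw [one_mul, PhiL_apply]
  have h1 : Summable fun k => ‖μ (ind B ⟨W k, W_mem h0 k⟩)‖ := summable_w hB h0 μ
  refine (norm_tsum_le_tsum_norm h1).trans ?_
  exact Real.tsum_le_of_sum_range_le (fun _ => abs_nonneg _) (sum_abs_le hB h0 μ)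

/-- A bounded linear functional on a normed space. -/
noncomputable def mkDual {X : Type*} [NormedAddCommGroup X] [NormedSpace ℝ X] (f : X →ₗ[ℝ] ℝ)
    (h : ∀ x, ‖f x‖ ≤ 1 * ‖x‖) : StrongDual ℝ X := f.mkContinuous 1 h

theorem mkDual_apply {X : Type*} [NormedAddCommGroup X] [NormedSpace ℝ X] (f : X →ₗ[ℝ] ℝ)
    (h : ∀ x, ‖f x‖ ≤ 1 * ‖x‖) (x : X) : mkDual f h x = f x := rfl

/-- The functional on the dual. -/
noncomputable def Phi (hB : IsAlg B) (h0 : B0 ⊆ B) : StrongDual ℝ (StrongDual ℝ C(stone B, ℝ)) :=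
  mkDual (X := StrongDual ℝ C(stone B, ℝ)) (PhiL hB h0) (PhiL_le hB h0)

theorem Phi_nu (hB : IsAlg B) (h0 : B0 ⊆ B) (k : ℕ) : Phi hB h0 (nu hB k) = 1 / 2 := by
  have h1 : Phi hB h0 (nu hB k) = ∑' j, nu hB k (ind B ⟨W j, W_mem h0 j⟩) := by
    have h := mkDual_apply (X := StrongDual ℝ C(stone B, ℝ)) (PhiL hB h0) (PhiL_le hB h0)
      (nu hB k)
    rw [PhiL_apply] at h
    exact h
  rw [h1]
  simp_rw [nu_ind]
  rw [tsum_eq_single k]
  · unfold xk W I
    have h2 : U k ∩ V (2 ^ (ell k + 1)) false ∩ U k ∩ V (2 ^ (ell k + 1)) false =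
        U k ∩ V (2 ^ (ell k + 1)) false := by
      ext x
      simp only [mem_inter_iff]
      tauto
    have h3 : U k ∩ V (2 ^ (ell k + 1)) false ∩ U k ∩ V (2 ^ (ell k + 1)) true = ∅ := by
      ext x
      simp only [mem_inter_iff, V, mem_ofPred_eq, mem_empty_iff_false, iff_false, not_and]
      rintro ⟨⟨_, h⟩, _⟩ h'
      rw [h] at h'
      exact absurd h' (by decide)
    rw [h2, h3, measureReal_empty, sub_zero]
    have h4 : lam.real (U k ∩ V (2 ^ (ell k + 1)) false) = (2⁻¹ : ℝ) ^ (ell k + 1) / 2 := by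
      have hlt : ell k < 2 ^ (ell k + 1) := by
        have := Nat.lt_two_pow_self (n := ell k + 1)
        omega
      have h5 := (dep_U k).real_eq hlt
      have h6 : lam.real (U k) = lam.real (U k ∩ V (2 ^ (ell k + 1)) false) +
          lam.real (U k ∩ V (2 ^ (ell k + 1)) true) := by
        rw [← measureReal_union]
        · congr 1
          ext x
          simp only [V, mem_union, mem_inter_iff, mem_ofPred_eq]
          cases x (2 ^ (ell k + 1)) <;> simp
        · rw [Set.disjoint_left]
          rintro x ⟨_, h⟩ ⟨_, h'⟩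
          have h8 : x (2 ^ (ell k + 1)) = false := h
          have h9 : x (2 ^ (ell k + 1)) = true := h'
          rw [h8] at h9
          exact absurd h9 (by decide)
        · exact (dep_U k).measurableSet.inter (measurableSet_V _ _)
      rw [lam_real_U] at h6
      linarith
    rw [h4, inv_pow]
    field_simp
  · intro j hj
    unfold xk W
    have h2 : U j ∩ V (2 ^ (ell j + 1)) false ∩ U k = ∅ := by
      rw [← disjoint_iff_inter_eq_empty]
      exact (disjoint_U hj).mono inter_subset_left le_rfl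
    rw [h2, I_empty, mul_zero]

/-- No algebra with property (T) which contains `B0` has the Grothendieck property. -/
theorem not_grothendieck (hB : IsAlg B) (hT : PropT B) (h0 : B0 ⊆ B) :
    ¬ GrothendieckProperty B := by
  intro h
  have h1 := h (fun k => nu hB k) 0 (fun f => by simpa using tendsto_nu hB hT h0 f) (Phi hB h0)
  simp_rw [Phi_nu] at h1
  rw [map_zero] at h1
  have := tendsto_nhds_unique h1 tendsto_const_nhds
  norm_num at this

end functionals

/-! ### Zorn's lemma -/

theorem exists_mem_of_chain {c : Set (Set (Set Cantor))} (hc : IsChain (· ⊆ ·) c)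
    (hne : c.Nonempty) (F : Finset (Set Cantor)) (hF : ∀ A ∈ F, A ∈ ⋃₀ c) :
    ∃ B ∈ c, ∀ A ∈ F, A ∈ B := by
  classical
  induction F using Finset.induction_on with
  | empty => exact ⟨hne.some, hne.some_mem, fun A hA => absurd hA (by simp)⟩
  | insert A F _ ih =>
    obtain ⟨B, hB, h⟩ := ih fun A hA => hF A (Finset.mem_insert_of_mem hA)
    obtain ⟨C, hC, h'⟩ := hF A (Finset.mem_insert_self _ _)
    rcases hc.total hB hC with h1 | h1
    · refine ⟨C, hC, fun D hD => ?_⟩
      rcases Finset.mem_insert.1 hD with rfl | hD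
      · exact h'
      · exact h1 (h D hD)
    · refine ⟨B, hB, fun D hD => ?_⟩
      rcases Finset.mem_insert.1 hD with rfl | hD
      · exact h1 h'
      · exact h D hD

theorem exists_isMaxT {B' : Set (Set Cantor)} (h1 : IsAlg B') (h2 : PropT B') :
    ∃ B : Set (Set Cantor), IsMaxT B ∧ B' ⊆ B := by
  classical
  obtain ⟨B, h, hB⟩ := zorn_subset_nonempty {B : Set (Set Cantor) | IsAlg B ∧ PropT B} (by
    intro c hcS hc hne
    refine ⟨⋃₀ c, ⟨⟨?_, ?_, ?_, ?_⟩, ?_⟩, fun s hs => Set.subset_sUnion_of_mem hs⟩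
    · rintro A ⟨B, hB, hA⟩
      exact (hcS hB).1.borel A hA
    · intro A hA
      obtain ⟨B, hB⟩ := hne
      exact ⟨B, hB, (hcS hB).1.clopen A hA⟩
    · rintro A ⟨B, hB, hA⟩
      exact ⟨B, hB, (hcS hB).1.compl A hA⟩
    · intro A hA A' hA'
      obtain ⟨B, hB, h⟩ := exists_mem_of_chain hc hne {A, A'} (by
        intro D hD
        simp only [Finset.mem_insert, Finset.mem_singleton] at hD
        rcases hD with rfl | rfl
        · exact hA
        · exact hA')
      exact ⟨B, hB, (hcS hB).1.union A (h A (by simp)) A' (h A' (by simp))⟩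
    · intro F hF ε hε
      obtain ⟨B, hB, h⟩ := exists_mem_of_chain hc hne F hF
      exact (hcS hB).2 F h ε hε) B' ⟨h1, h2⟩
  exact ⟨B, hB, h⟩

/-- There is a maximal subalgebra of `Bor(2^ℕ)` with property (T) which does not have the
Grothendieck property. More precisely, there is a subalgebra `B'` with property (T) such that no
subalgebra `B ⊇ B'` with property (T) has the Grothendieck property. -/
theorem result :
    (∃ B : Set (Set Cantor), IsMaxT B ∧ ¬ GrothendieckProperty B) ∧
    ∃ B' : Set (Set Cantor), IsAlg B' ∧ PropT B' ∧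
      ∀ B : Set (Set Cantor), B' ⊆ B → IsAlg B → PropT B → ¬ GrothendieckProperty B := by
  refine ⟨?_, B0, isAlg_B0, propT_B0, fun B h hB hT => not_grothendieck hB hT h⟩
  obtain ⟨B, hB, h⟩ := exists_isMaxT isAlg_B0 propT_B0
  exact ⟨B, hB, not_grothendieck hB.1.1 hB.1.2 h⟩

end Pool.Agent.Results.MP_54cd88_an.MaxTNotGrothendieck
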